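import Pool.Agent.Lib_MP_97158b_co_ins.Strict

/-!
# MP_97158b_co: the coefficients as numbers of partitions
-/

set_option autoImplicit false

open Finset

namespace Pool.Agent.Lib_MP_97158b_co

open Polynomial in
theorem P_range (d n : ℕ) : P d n = ∏ i ∈ range n, ∑ c ∈ range d, (X : ℕ[X]) ^ ((i + 1) * c) := by
  induction n with
  | zero => simp [P]
  | succ n ih =>
    rw [P_succ, ih, prod_range_succ]
    rfl

open scoped PowerSeries.WithPiTopology in
theorem genFun_eq (d n : ℕ) (hd : 1 ≤ d) :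
    Nat.Partition.genFun (R := ℕ) (fun i c => if i ≤ n ∧ c < d then 1 else 0) = ((P d n : Polynomial ℕ) : PowerSeries ℕ) := by
  set f : ℕ → ℕ → ℕ := fun i c => if i ≤ n ∧ c < d then 1 else 0 with hf
  have h1 := Nat.Partition.hasProd_genFun (R := ℕ) f
  have h2 : ∀ i ∉ range n, (1 : PowerSeries ℕ) + ∑' j, f (i + 1) (j + 1) • PowerSeries.X ^ ((i + 1) * (j + 1)) = 1 := by
    intro i hi
    rw [mem_range] at hi
    have h3 : ∀ j, f (i + 1) (j + 1) • (PowerSeries.X : PowerSeries ℕ) ^ ((i + 1) * (j + 1)) = 0 := by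
      intro j
      rw [hf]
      simp only
      rw [if_neg (by omega), zero_smul]
    simp only [h3, tsum_zero, add_zero]
  have h4 : HasProd (fun i => (1 : PowerSeries ℕ) + ∑' j, f (i + 1) (j + 1) • PowerSeries.X ^ ((i + 1) * (j + 1))) _ :=
    hasProd_prod_of_ne_finset_one h2
  rw [h1.unique h4, P_range, ← Polynomial.coeToPowerSeries.ringHom_apply, map_prod]
  refine prod_congr rfl fun i hi => ?_
  rw [mem_range] at hi
  have h5 : ∑' j, f (i + 1) (j + 1) • (PowerSeries.X : PowerSeries ℕ) ^ ((i + 1) * (j + 1)) =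
      ∑ j ∈ range (d - 1), (PowerSeries.X : PowerSeries ℕ) ^ ((i + 1) * (j + 1)) := by
    rw [tsum_eq_sum (s := range (d - 1))]
    · refine sum_congr rfl fun j hj => ?_
      rw [mem_range] at hj
      rw [hf]
      simp only
      rw [if_pos (by omega), one_smul]
    · intro j hj
      rw [mem_range] at hj
      rw [hf]
      simp only
      rw [if_neg (by omega), zero_smul]
  rw [h5, map_sum]
  obtain ⟨e, rfl⟩ : ∃ e, d = e + 1 := ⟨d - 1, by omega⟩
  rw [Nat.add_sub_cancel, sum_range_succ', add_comm]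
  congr 1
  · refine sum_congr rfl fun j _ => ?_
    rw [map_pow, Polynomial.coeToPowerSeries.ringHom_apply, Polynomial.coe_X]
  · rw [mul_zero, pow_zero, map_one]

theorem coeff_P (d n k : ℕ) (hd : 1 ≤ d) : (P d n).coeff k =
    ((univ : Finset (Nat.Partition k)).filter (fun p => ∀ i ∈ p.parts, i ≤ n ∧ p.parts.count i < d)).card := by
  have h1 := congrArg (fun F : PowerSeries ℕ => PowerSeries.coeff k F) (genFun_eq d n hd)
  simp only [Nat.Partition.coeff_genFun, Polynomial.coeff_coe] at h1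
  rw [← h1, card_filter]
  refine sum_congr rfl fun p _ => ?_
  unfold Finsupp.prod
  rw [Multiset.toFinsupp_support]
  have h2 : ∀ i ∈ p.parts.toFinset, (if i ≤ n ∧ (Multiset.toFinsupp p.parts) i < d then (1 : ℕ) else 0) =
      if i ≤ n ∧ p.parts.count i < d then 1 else 0 := by
    intro i _
    rw [Multiset.toFinsupp_apply]
  rw [prod_congr rfl h2, prod_boole]
  simp only [Multiset.mem_toFinset]

/-- the final form -/
theorem final (d : ℕ) (hd : 2 ≤ d) : ∃ n0 : ℕ, ∀ n : ℕ, n0 ≤ n →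
    (∀ k, 2 * (k + 1) ≤ deg d n → (P d n).coeff k ≤ (P d n).coeff (k + 1)) ∧
    (∀ k, n ≤ k → 2 * (k + 1) ≤ deg d n → (P d n).coeff k < (P d n).coeff (k + 1)) := by
  obtain ⟨N1, h1⟩ := half_mono d hd
  obtain ⟨N2, h2⟩ := half_strict d hd
  refine ⟨max N1 N2, fun n hn => ⟨fun k hk => ?_, fun k hk hk2 => ?_⟩⟩
  · have := h1 n ((le_max_left _ _).trans hn) (k + 1) (by omega) hk
    simpa using this
  · have := h2 n ((le_max_right _ _).trans hn) (k + 1) (by omega) hk2
    simpa using this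

theorem P_coeff_zero (d n : ℕ) (hd : 1 ≤ d) : (P d n).coeff 0 = 1 := by
  rw [Polynomial.coeff_zero_eq_eval_zero]
  unfold P blk
  rw [Polynomial.eval_prod]
  refine prod_eq_one fun i hi => ?_
  rw [mem_Icc] at hi
  rw [Polynomial.eval_finsetSum]
  obtain ⟨e, rfl⟩ : ∃ e, d = e + 1 := ⟨d - 1, by omega⟩
  rw [sum_range_succ']
  simp only [Polynomial.eval_pow, Polynomial.eval_X, mul_zero, pow_zero]
  rw [sum_eq_zero, zero_add, Polynomial.eval_one]
  intro j _
  have : i * (j + 1) ≠ 0 := Nat.mul_ne_zero (by omega) (by omega)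
  exact zero_pow this

open Polynomial in
theorem map_P (d n : ℕ) : (P d n).map (Nat.castRingHom ℤ) = ∏ i ∈ Icc 1 n, ∑ j ∈ range d, (X : ℤ[X]) ^ (i * j) := by
  unfold P blk
  rw [Polynomial.map_prod]
  refine prod_congr rfl fun i _ => ?_
  rw [Polynomial.map_sum]
  refine sum_congr rfl fun j _ => ?_
  rw [Polynomial.map_pow, Polynomial.map_X]

open Polynomial in
theorem coeff_int (d n k : ℕ) : (∏ i ∈ Icc 1 n, ∑ j ∈ range d, (X : ℤ[X]) ^ (i * j)).coeff k = ((P d n).coeff k : ℤ) := by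
  rw [← map_P, coeff_map]
  simp

end Pool.Agent.Lib_MP_97158b_co
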