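import Pool.Agent.Lib_MP_97158b_co.Final

/-!
# MP_97158b_co: strict form of the monotonicity (the proofs of `Lib_MP_97158b_co` with strict inequalities)
-/

set_option autoImplicit false

open Finset Filter MeasureTheory

namespace Pool.Agent.Lib_MP_97158b_co

/-- Positivity in the tilted regime. -/
theorem tilt_pos_strict (d : ℕ) (hd : 2 ≤ d) : ∃ C1 : ℝ, 0 < C1 ∧ ∃ M0 : ℕ, ∀ (n : ℕ) (s : ℝ) (m : ℕ),
    Adm n s m → M0 ≤ m → C1 / (m : ℝ) ^ 2 ≤ s →
      0 < ∫ θ in (-Real.pi)..Real.pi, (psi d n s θ * ker s 0 θ).re := by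
  have hd0 : (0 : ℝ) < d := by exact_mod_cast (by omega : 0 < d)
  have hd1 : (1 : ℝ) ≤ d := by exact_mod_cast (by omega : 1 ≤ d)
  have hA := AA_pos hd
  have hg3 := gp_pos 3
  have hg4 := gp_pos 4
  set B2 : ℝ := d ^ 3 * KK 2 with hB2
  have hB2pos : 0 < B2 := by have := KK_pos 2; positivity
  have hB2one : 1 ≤ B2 := by
    have h1 : (1 : ℝ) ≤ KK 2 := by
      unfold KK
      have : (0 : ℝ) ≤ ((2 + 2).factorial : ℝ) * 2 ^ (2 + 2) := by positivity
      linarith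
    have h2 : (1 : ℝ) ≤ (d : ℝ) ^ 3 := one_le_pow₀ hd1
    nlinarith
  set c2 : ℝ := 1 / (45 * (d : ℝ) ^ 2) with hc2
  have hc2pos : 0 < c2 := by positivity
  set c3 : ℝ := 1 / (6 * (d : ℝ) ^ 2) with hc3
  have hc3pos : 0 < c3 := by positivity
  set b : ℝ := Real.sqrt B2 with hb
  have hbpos : 0 < b := Real.sqrt_pos.mpr hB2pos
  have hb2 : b ^ 2 = B2 := Real.sq_sqrt hB2pos.le
  set γ : ℝ := Real.sqrt c2 with hγ
  have hγpos : 0 < γ := Real.sqrt_pos.mpr hc2pos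
  have hγ2 : γ ^ 2 = c2 := Real.sq_sqrt hc2pos.le
  set η : ℝ := 1 / (8 * b) with hη
  have hηpos : 0 < η := by positivity
  set C1 : ℝ := AA d * gp 4 / γ ^ 5 / η + 1 with hC1
  have hC1pos : 0 < C1 := by positivity
  refine ⟨C1, hC1pos, ?_⟩
  have ev1 := ev_sqrt (η * γ ^ 4 / (AA d * gp 3)) (by positivity)
  have ev2 := ev_exp 8 c3 hc3pos (η * C1 / (1000 * AA d)) (by positivity)
  obtain ⟨M0, hM0⟩ := ((ev1.and ev2).and (eventually_ge_atTop 1)).exists_forall_of_atTop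
  refine ⟨M0, fun n s m h hm hs => ?_⟩
  obtain ⟨⟨h1, h2⟩, h3⟩ := hM0 m hm
  have hm1 : (1 : ℝ) ≤ m := by exact_mod_cast h3
  have hm0 : (0 : ℝ) < m := by linarith
  set r : ℝ := Real.sqrt ((m : ℝ) ^ 3) with hr
  have hrpos : 0 < r := Real.sqrt_pos.mpr (by positivity)
  have hr2 : r ^ 2 = (m : ℝ) ^ 3 := Real.sq_sqrt (by positivity)
  have hrm : r ≤ (m : ℝ) ^ 2 := by
    rw [hr, Real.sqrt_le_left (by positivity)]
    calc (m : ℝ) ^ 3 ≤ (m : ℝ) ^ 4 := pow_le_pow_right₀ hm1 (by norm_num)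
      _ = _ := by ring
  have hspos : 0 < s := lt_of_lt_of_le (by positivity) hs
  have hsm : C1 ≤ s * (m : ℝ) ^ 2 := by
    rw [div_le_iff₀ (by positivity)] at hs; exact hs
  -- apply the bound
  have hbound := tilt_bound hd h (1 / (b * r)) (γ * r) (by positivity) ?_ ?_ (by positivity) ?_
  · refine lt_of_lt_of_le ?_ hbound
    set E2 := Real.exp (-(c3 * m)) with hE2
    have hE2pos : 0 < E2 := Real.exp_pos _
    -- the three error terms
    have t1 : AA d * (m : ℝ) ^ 4 * (s * (gp 3 / (γ * r) ^ 4)) ≤ s * (η / r) := by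
      have e1 : (γ * r) ^ 4 = γ ^ 4 * ((m : ℝ) ^ 3) ^ 2 := by
        rw [mul_pow, ← hr2]; ring
      rw [e1]
      have e2 : AA d * (m : ℝ) ^ 4 * (s * (gp 3 / (γ ^ 4 * ((m : ℝ) ^ 3) ^ 2)))
          = s * (AA d * gp 3 / (γ ^ 4 * (m : ℝ) ^ 2)) := by field_simp
      rw [e2]
      apply mul_le_mul_of_nonneg_left _ hspos.le
      rw [div_le_div_iff₀ (by positivity) hrpos]
      have h4 : r * (AA d * gp 3) ≤ (η * γ ^ 4 * (m : ℝ) ^ 2) := by
        have := mul_le_mul_of_nonneg_right h1 (by positivity : 0 ≤ AA d * gp 3)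
        calc r * (AA d * gp 3) ≤ _ := this
          _ = _ := by field_simp
      linarith
    have t2 : AA d * (m : ℝ) ^ 4 * (gp 4 / (γ * r) ^ 5) ≤ s * (η / r) := by
      have e1 : (γ * r) ^ 5 = γ ^ 5 * ((m : ℝ) ^ 6 * r) := by
        have : r ^ 5 = (r ^ 2) ^ 2 * r := by ring
        rw [mul_pow, this, hr2]; ring
      rw [e1]
      have e2 : AA d * (m : ℝ) ^ 4 * (gp 4 / (γ ^ 5 * ((m : ℝ) ^ 6 * r)))
          = (AA d * gp 4 / γ ^ 5) / ((m : ℝ) ^ 2 * r) := by field_simp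
      rw [e2, div_le_iff₀ (by positivity)]
      have h4 : AA d * gp 4 / γ ^ 5 ≤ C1 * η := by
        rw [hC1, add_mul, div_mul_cancel₀ _ hηpos.ne', one_mul]; linarith
      calc AA d * gp 4 / γ ^ 5 ≤ C1 * η := h4
        _ ≤ (s * (m : ℝ) ^ 2) * η := mul_le_mul_of_nonneg_right hsm hηpos.le
        _ = s * (η / r) * ((m : ℝ) ^ 2 * r) := by field_simp
    have t3 : AA d * (m : ℝ) ^ 4 * (1000 * E2) ≤ s * (η / r) := by
      have h4 : 1000 * AA d * ((m : ℝ) ^ 8 * E2) ≤ η * C1 := by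
        have := mul_le_mul_of_nonneg_left h2 (by positivity : 0 ≤ 1000 * AA d)
        calc _ ≤ _ := this
          _ = _ := by field_simp
      rw [mul_div_assoc', le_div_iff₀ hrpos]
      have h5 : AA d * (m : ℝ) ^ 4 * (1000 * E2) * r * (m : ℝ) ^ 2 ≤ s * η * (m : ℝ) ^ 2 := by
        calc AA d * (m : ℝ) ^ 4 * (1000 * E2) * r * (m : ℝ) ^ 2
            = (1000 * AA d * E2 * (m : ℝ) ^ 6) * r := by ring
          _ ≤ (1000 * AA d * E2 * (m : ℝ) ^ 6) * (m : ℝ) ^ 2 :=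
              mul_le_mul_of_nonneg_left hrm (by positivity)
          _ = 1000 * AA d * ((m : ℝ) ^ 8 * E2) := by ring
          _ ≤ η * C1 := h4
          _ ≤ η * (s * (m : ℝ) ^ 2) := mul_le_mul_of_nonneg_left hsm hηpos.le
          _ = _ := by ring
      exact le_of_mul_le_mul_right h5 (by positivity)
    have t0 : s / 2 * (1 / (b * r)) = 4 * (s * (η / r)) := by
      rw [hη]; field_simp; ring
    have hpos : 0 < s * (η / r) := by positivity
    have e3 : AA d * (m : ℝ) ^ 4 * (s * (gp 3 / (γ * r) ^ 4) + gp 4 / (γ * r) ^ 5 + 1000 * E2)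
        = AA d * (m : ℝ) ^ 4 * (s * (gp 3 / (γ * r) ^ 4)) + AA d * (m : ℝ) ^ 4 * (gp 4 / (γ * r) ^ 5)
          + AA d * (m : ℝ) ^ 4 * (1000 * E2) := by ring
    rw [e3, t0]
    linarith
  · -- ρ ≤ π
    have hb1 : 1 ≤ b := by rw [hb, Real.one_le_sqrt]; exact hB2one
    have hr1 : 1 ≤ r := by rw [hr, Real.one_le_sqrt]; exact one_le_pow₀ hm1
    have : 1 / (b * r) ≤ 1 := by
      rw [div_le_one (by positivity)]; nlinarith
    linarith [Real.pi_gt_three]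
  · rw [div_pow, mul_pow, hb2, hr2, one_pow, mul_one_div, div_le_one (by positivity)]
  · rw [mul_pow, hγ2, hr2]


/-- Positivity in the central regime. -/
theorem central_pos_strict (d : ℕ) (hd : 2 ≤ d) (C : ℝ) : ∃ M0 : ℕ, ∀ n : ℕ, M0 ≤ n →
    ∀ v : ℝ, 0 ≤ v → v + 1 / 2 ≤ C * n →
      0 < ∫ θ in (-Real.pi)..Real.pi, (psi d n 0 θ * ker 0 v θ).re := by
  have hd0 : (0 : ℝ) < d := by exact_mod_cast (by omega : 0 < d)
  have hd1 : (1 : ℝ) ≤ d := by exact_mod_cast (by omega : 1 ≤ d)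
  have hA := AA_pos hd
  have hg4 := gp_pos 4
  have hg5 := gp_pos 5
  set B2 : ℝ := d ^ 3 * KK 2 with hB2
  have hB2pos : 0 < B2 := by have := KK_pos 2; positivity
  have hB2one : 1 ≤ B2 := by
    have h1 : (1 : ℝ) ≤ KK 2 := by
      unfold KK
      have : (0 : ℝ) ≤ ((2 + 2).factorial : ℝ) * 2 ^ (2 + 2) := by positivity
      linarith
    have h2 : (1 : ℝ) ≤ (d : ℝ) ^ 3 := one_le_pow₀ hd1
    nlinarith
  set c2 : ℝ := 1 / (45 * (d : ℝ) ^ 2) with hc2
  have hc2pos : 0 < c2 := by positivity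
  set c1 : ℝ := 1 / (18 * (d : ℝ) ^ 2) with hc1
  have hc1pos : 0 < c1 := by positivity
  set c3 : ℝ := 1 / (6 * (d : ℝ) ^ 2) with hc3
  have hc3pos : 0 < c3 := by positivity
  set b : ℝ := Real.sqrt B2 with hb
  have hbpos : 0 < b := Real.sqrt_pos.mpr hB2pos
  have hb2 : b ^ 2 = B2 := Real.sq_sqrt hB2pos.le
  set γ : ℝ := Real.sqrt c2 with hγ
  have hγpos : 0 < γ := Real.sqrt_pos.mpr hc2pos
  have hγ2 : γ ^ 2 = c2 := Real.sq_sqrt hc2pos.le
  set δ : ℝ := Real.sqrt c1 with hδ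
  have hδpos : 0 < δ := Real.sqrt_pos.mpr hc1pos
  have hδ2 : δ ^ 2 = c1 := Real.sq_sqrt hc1pos.le
  set η : ℝ := 1 / (30 * b ^ 3) with hη
  have hηpos : 0 < η := by positivity
  obtain ⟨N1, hN1⟩ := exists_nat_ge (2 * C ^ 2 * gp 4 / δ ^ 5 / η)
  have ev1 := ev_sqrt (η * γ ^ 6 / (AA d * gp 5)) (by positivity)
  have ev2 := ev_exp 10 c3 hc3pos (η / (2000 * AA d)) (by positivity)
  obtain ⟨M0, hM0⟩ := (((ev1.and ev2).and (eventually_ge_atTop 1)).and
    (eventually_ge_atTop N1)).exists_forall_of_atTop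
  refine ⟨M0, fun n hn v hv hvC => ?_⟩
  obtain ⟨⟨⟨h1, h2⟩, h3⟩, h4⟩ := hM0 n hn
  have hn1 : (1 : ℝ) ≤ n := by exact_mod_cast h3
  have hn0 : (0 : ℝ) < n := by linarith
  have hN1' : 2 * C ^ 2 * gp 4 / δ ^ 5 / η ≤ (n : ℝ) := hN1.trans (by exact_mod_cast h4)
  set r : ℝ := Real.sqrt ((n : ℝ) ^ 3) with hr
  have hrpos : 0 < r := Real.sqrt_pos.mpr (by positivity)
  have hr2 : r ^ 2 = (n : ℝ) ^ 3 := Real.sq_sqrt (by positivity)
  have hrm : r ≤ (n : ℝ) ^ 2 := by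
    rw [hr, Real.sqrt_le_left (by positivity)]
    calc (n : ℝ) ^ 3 ≤ (n : ℝ) ^ 4 := pow_le_pow_right₀ hn1 (by norm_num)
      _ = _ := by ring
  set u := v + 1 / 2 with hu
  have hu0 : 0 < u := by linarith
  have hbound := central_bound hd h3 v hv (1 / (b * r)) (γ * r) (δ * r) (by positivity) ?_ ?_
    (by positivity) ?_ (by positivity) ?_
  · refine lt_of_lt_of_le ?_ hbound
    apply mul_pos hu0
    set E2 := Real.exp (-(c3 * n)) with hE2
    have hE2pos : 0 < E2 := Real.exp_pos _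
    rw [← hu]
    have t0 : 2 / 15 * (1 / (b * r)) ^ 3 = 4 * (η / r ^ 3) := by
      rw [hη]; field_simp; ring
    have t1 : 2 * u ^ 2 * (gp 4 / (δ * r) ^ 5) ≤ η / r ^ 3 := by
      have e1 : (δ * r) ^ 5 = δ ^ 5 * (r ^ 3 * (n : ℝ) ^ 3) := by
        rw [mul_pow, ← hr2]; ring
      rw [e1, le_div_iff₀ (by positivity)]
      have e2 : 2 * u ^ 2 * (gp 4 / (δ ^ 5 * (r ^ 3 * (n : ℝ) ^ 3))) * r ^ 3
          = (2 * u ^ 2 * gp 4 / δ ^ 5) / (n : ℝ) ^ 3 := by field_simp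
      rw [e2, div_le_iff₀ (by positivity)]
      have h5 : u ^ 2 ≤ (C * n) ^ 2 := pow_le_pow_left₀ hu0.le hvC 2
      have h6 : 2 * C ^ 2 * gp 4 / δ ^ 5 ≤ n * η := by
        rwa [div_le_iff₀ hηpos] at hN1'
      calc 2 * u ^ 2 * gp 4 / δ ^ 5 = u ^ 2 * (2 * gp 4 / δ ^ 5) := by ring
        _ ≤ (C * n) ^ 2 * (2 * gp 4 / δ ^ 5) := mul_le_mul_of_nonneg_right h5 (by positivity)
        _ = (2 * C ^ 2 * gp 4 / δ ^ 5) * (n : ℝ) ^ 2 := by ring
        _ ≤ (n * η) * (n : ℝ) ^ 2 := mul_le_mul_of_nonneg_right h6 (by positivity)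
        _ = η * (n : ℝ) ^ 3 := by ring
    have t2 : AA d * (n : ℝ) ^ 4 * (gp 5 / (γ * r) ^ 6) ≤ η / r ^ 3 := by
      have e1 : (γ * r) ^ 6 = γ ^ 6 * (r ^ 3 * (r * (n : ℝ) ^ 3)) := by
        rw [mul_pow, ← hr2]; ring
      rw [e1, le_div_iff₀ (by positivity)]
      have e2 : AA d * (n : ℝ) ^ 4 * (gp 5 / (γ ^ 6 * (r ^ 3 * (r * (n : ℝ) ^ 3)))) * r ^ 3
          = (AA d * gp 5 / γ ^ 6) * (n / r) := by field_simp
      rw [e2]
      have h5 : (n : ℝ) / r ≤ η * γ ^ 6 / (AA d * gp 5) := by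
        rw [div_le_iff₀ hrpos]
        have h6 := mul_le_mul_of_nonneg_right h1 hrpos.le
        have h7 : r * r = (n : ℝ) ^ 3 := by rw [← hr2]; ring
        rw [h7] at h6
        have h8 : (n : ℝ) * (n : ℝ) ^ 2
            ≤ (η * γ ^ 6 / (AA d * gp 5) * r) * (n : ℝ) ^ 2 := by
          calc (n : ℝ) * (n : ℝ) ^ 2 = (n : ℝ) ^ 3 := by ring
            _ ≤ _ := h6
            _ = _ := by ring
        exact le_of_mul_le_mul_right h8 (by positivity)
      calc (AA d * gp 5 / γ ^ 6) * (n / r) ≤ (AA d * gp 5 / γ ^ 6) * (η * γ ^ 6 / (AA d * gp 5)) :=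
            mul_le_mul_of_nonneg_left h5 (by positivity)
        _ = η := by field_simp
    have t3 : AA d * (n : ℝ) ^ 4 * (2000 * E2) ≤ η / r ^ 3 := by
      rw [le_div_iff₀ (by positivity)]
      have h5 : r ^ 3 ≤ ((n : ℝ) ^ 2) ^ 3 := pow_le_pow_left₀ hrpos.le hrm 3
      have h6 : 2000 * AA d * ((n : ℝ) ^ 10 * E2) ≤ η := by
        have := mul_le_mul_of_nonneg_left h2 (by positivity : 0 ≤ 2000 * AA d)
        calc _ ≤ _ := this
          _ = _ := by field_simp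
      calc AA d * (n : ℝ) ^ 4 * (2000 * E2) * r ^ 3
          ≤ AA d * (n : ℝ) ^ 4 * (2000 * E2) * ((n : ℝ) ^ 2) ^ 3 :=
            mul_le_mul_of_nonneg_left h5 (by positivity)
        _ = 2000 * AA d * ((n : ℝ) ^ 10 * E2) := by ring
        _ ≤ η := h6
    have e3 : AA d * (n : ℝ) ^ 4 * (gp 5 / (γ * r) ^ 6 + 2000 * E2)
        = AA d * (n : ℝ) ^ 4 * (gp 5 / (γ * r) ^ 6) + AA d * (n : ℝ) ^ 4 * (2000 * E2) := by ring
    have hpos : 0 < η / r ^ 3 := by positivity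
    rw [e3, t0]
    linarith
  · have hb1 : 1 ≤ b := by rw [hb, Real.one_le_sqrt]; exact hB2one
    have hr1 : 1 ≤ r := by rw [hr, Real.one_le_sqrt]; exact one_le_pow₀ hn1
    have : 1 / (b * r) ≤ 1 := by
      rw [div_le_one (by positivity)]; nlinarith
    linarith [Real.pi_gt_three]
  · rw [div_pow, mul_pow, hb2, hr2, one_pow, mul_one_div, div_le_one (by positivity)]
  · rw [mul_pow, hγ2, hr2]
  · rw [mul_pow, hδ2, hr2]


/-- positivity of the integral gives strict monotonicity -/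
theorem mono_of_integral_strict (d n : ℕ) (hd : 1 ≤ d) (s : ℝ) (k : ℕ) (hk : 1 ≤ k)
    (h : 0 < ∫ θ in (-Real.pi)..Real.pi, (psi d n s θ * ker s (M d n s - k) θ).re) :
    (P d n).coeff (k - 1) < (P d n).coeff k := by
  have h1 := diff_integral d n hd s k hk
  have hZ : 0 < ∏ i ∈ Icc 1 n, Z d (qq s i) :=
    Finset.prod_pos fun i _ => (Z_pos hd (qq_pos s i).le)
  have h2 : 0 < 2 * Real.pi * (((P d n).coeff k : ℝ) - ((P d n).coeff (k - 1) : ℝ))
      * Real.exp (-(s * k)) := by rw [h1]; exact mul_pos hZ h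
  have h3 : 0 < ((P d n).coeff k : ℝ) - ((P d n).coeff (k - 1) : ℝ) := by
    by_contra hcon
    push Not at hcon
    have h4 : 2 * Real.pi * (((P d n).coeff k : ℝ) - ((P d n).coeff (k - 1) : ℝ))
      * Real.exp (-(s * k)) ≤ 0 := by
      apply mul_nonpos_of_nonpos_of_nonneg _ (Real.exp_pos _).le
      exact mul_nonpos_of_nonneg_of_nonpos (by positivity) hcon
    linarith
  have h5 : ((P d n).coeff (k - 1) : ℝ) < ((P d n).coeff k : ℝ) := by linarith
  exact_mod_cast h5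

theorem half_strict (d : ℕ) (hd : 2 ≤ d) : ∃ N0 : ℕ, ∀ n : ℕ, N0 ≤ n →
    ∀ k : ℕ, n < k → 2 * k ≤ deg d n → (P d n).coeff (k - 1) < (P d n).coeff k := by
  have hd1 : 1 ≤ d := by omega
  have hd0 : (0 : ℝ) < d := by exact_mod_cast (by omega : 0 < d)
  obtain ⟨C1, hC1, M0, hM0⟩ := tilt_pos_strict d hd
  obtain ⟨M1, hM1⟩ := central_pos_strict d hd (d ^ 2 * C1 + 1)
  obtain ⟨K, hK⟩ := exists_nat_ge ((d : ℝ) ^ 2 * KK 1 + 1)
  obtain ⟨M2, hM2⟩ := exists_nat_ge (2 * C1 + 1)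
  have hKpos : 0 < K := by
    have : (0 : ℝ) < K := lt_of_lt_of_le (by have := KK_pos 1; positivity) hK
    exact_mod_cast this
  set m1 : ℕ := M0 + M1 + M2 + 1 with hm1
  -- choose `N0 = K * m1^2`
  refine ⟨K * m1 ^ 2, fun n hn k hkn hk2 => ?_⟩
  have hk1 : 1 ≤ k := by omega
  have hm1n : m1 ≤ n := by
    have h1 : m1 ≤ m1 ^ 2 := Nat.le_self_pow (by norm_num) m1
    have h2 : m1 ^ 2 ≤ K * m1 ^ 2 := Nat.le_mul_of_pos_left _ hKpos
    omega
  have hm1pos : 1 ≤ m1 := by omega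
  have hm1' : (0 : ℝ) < m1 := by exact_mod_cast hm1pos
  -- the endpoint
  have hadm1 : Adm n (1 / m1) m1 := by
    refine ⟨hm1pos, hm1n, by positivity, ?_, Or.inr ?_⟩
    · rw [one_div_mul_cancel hm1'.ne']
    · rw [one_div, ← div_eq_inv_mul, le_div_iff₀ hm1']; linarith
  have hMend : M d n (1 / m1) ≤ k := by
    have h1 := M_le hd1 hadm1
    have h2 : (d : ℝ) ^ 2 * KK 1 * (m1 : ℝ) ^ 2 ≤ K * (m1 : ℝ) ^ 2 :=
      mul_le_mul_of_nonneg_right (by linarith) (by positivity)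
    have h3 : ((K * m1 ^ 2 : ℕ) : ℝ) ≤ n := by exact_mod_cast hn
    have h4 : (n : ℝ) ≤ k := by exact_mod_cast hkn.le
    push_cast at h3
    linarith
  have hM0k : (k : ℝ) ≤ M d n 0 := by
    rw [M_zero d n hd1]
    have : ((2 * k : ℕ) : ℝ) ≤ (deg d n : ℝ) := by exact_mod_cast hk2
    push_cast at this
    linarith
  have hivt := intermediate_value_Icc' (f := M d n) (show (0 : ℝ) ≤ 1 / m1 by positivity)
    (continuous_M d n hd1).continuousOn
  obtain ⟨s, hs, hsk⟩ := hivt ⟨hMend, hM0k⟩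
  obtain ⟨m, hadm, hmm⟩ := exists_adm n m1 hm1pos hm1n s hs.1 hs.2
  have hm0 : (0 : ℝ) < m := by exact_mod_cast (by omega : 0 < m)
  by_cases hcase : C1 / (m : ℝ) ^ 2 ≤ s
  · apply mono_of_integral_strict d n hd1 s k hk1
    have h1 := hM0 n s m hadm (by omega) hcase
    have h2 : M d n s - k = 0 := by rw [hsk]; ring
    rw [h2]; exact h1
  · push Not at hcase
    have hmn : m = n := by
      rcases hadm.alt with h | h
      · exact h
      · exfalso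
        have h1 : (1 : ℝ) ≤ s * (2 * m) := by
          have h2 : (1 : ℝ) ≤ m := by exact_mod_cast (by omega : 1 ≤ m)
          have h3 : s * (m + 1) ≤ s * (2 * m) := mul_le_mul_of_nonneg_left (by linarith) hs.1
          linarith
        have h4 : s * (m : ℝ) ^ 2 < C1 := by
          rwa [lt_div_iff₀ (by positivity)] at hcase
        have h5 : (m : ℝ) ≤ 2 * (s * (m : ℝ) ^ 2) := by nlinarith
        have h6 : (M2 : ℝ) ≤ m := by exact_mod_cast (by omega : M2 ≤ m)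
        linarith
    rw [hmn] at hcase
    have hn0 : (0 : ℝ) < n := by exact_mod_cast (by omega : 0 < n)
    have hn1 : (1 : ℝ) ≤ n := by exact_mod_cast (by omega : 1 ≤ n)
    apply mono_of_integral_strict d n hd1 0 k hk1
    apply hM1 n (by omega)
    · linarith
    · have h1 := M_diff d n hd1 s hs.1
      rw [hsk] at h1
      have h2 : s * (n : ℝ) ^ 2 ≤ C1 := by
        rw [lt_div_iff₀ (by positivity)] at hcase; exact hcase.le
      have h3 : d ^ 2 * s * (n : ℝ) ^ 3 ≤ d ^ 2 * C1 * n := by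
        calc d ^ 2 * s * (n : ℝ) ^ 3 = (d ^ 2 * n) * (s * (n : ℝ) ^ 2) := by ring
          _ ≤ (d ^ 2 * n) * C1 := mul_le_mul_of_nonneg_left h2 (by positivity)
          _ = _ := by ring
      linarith


end Pool.Agent.Lib_MP_97158b_co
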